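import Pool.Agent.Y727.CS.Stm

set_option autoImplicit false

/-! Project CS: the limit of the radial integrals, and positivity. -/

namespace Pool.Agent.Y275.CS

open MeasureTheory Filter Topology Pool.Agent.Y727.CS

lemma continuous_nsq {d : ℕ} : Continuous (nsq : (Fin d → ℝ) → ℝ) := by
  unfold nsq
  fun_prop

lemma continuous_psi : Continuous psi := by
  unfold psi
  fun_prop

lemma psi_nonneg (s : ℝ) : 0 ≤ psi s := le_max_left _ _

lemma psi_le_one (s : ℝ) : psi s ≤ 1 := by
  unfold psi
  apply max_le (by norm_num)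
  nlinarith [sq_nonneg (s - 3 / 2)]

lemma psi_eq_zero {s : ℝ} (h : ¬ (1 ≤ s ∧ s ≤ 2)) : psi s = 0 := by
  unfold psi
  apply max_eq_left
  rcases not_and_or.1 h with h | h
  · push Not at h
    nlinarith
  · push Not at h
    nlinarith

lemma isCompact_shell {d : ℕ} : IsCompact {x : Fin d → ℝ | 1 ≤ nsq x ∧ nsq x ≤ 2} := by
  apply Metric.isCompact_of_isClosed_isBounded
  · exact (isClosed_le continuous_const continuous_nsq).inter
      (isClosed_le continuous_nsq continuous_const)
  · refine (Metric.isBounded_closedBall (x := (0 : Fin d → ℝ)) (r := 2)).subset ?_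
    intro x hx
    rw [mem_closedBall_zero_iff, pi_norm_le_iff_of_nonneg (by norm_num)]
    intro j
    have h1 : x j ^ 2 ≤ nsq x := by
      unfold nsq
      exact Finset.single_le_sum (f := fun j => x j ^ 2) (fun _ _ => sq_nonneg _)
        (Finset.mem_univ j)
    rw [Real.norm_eq_abs]
    apply abs_le_of_sq_le_sq _ (by norm_num)
    nlinarith [hx.2]

theorem t_lim : S_lim := by
  intro d H hH h0
  set K : Set (Fin d → ℝ) := {x | 1 ≤ nsq x ∧ nsq x ≤ 2} with hK
  have hKc : IsCompact K := isCompact_shell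
  have hcomp : IsCompact (Set.Icc (0 : ℝ) 1 ×ˢ K) := isCompact_Icc.prod hKc
  have hset : {p : ℝ × (Fin d → ℝ) | 0 ≤ p.1 ∧ p.1 ≤ 1 ∧ 1 ≤ nsq p.2 ∧ nsq p.2 ≤ 2}
      = Set.Icc (0 : ℝ) 1 ×ˢ K := by
    ext p
    simp only [Set.mem_ofPred_eq, Set.mem_prod, Set.mem_Icc, hK]
    tauto
  rw [hset] at hH
  obtain ⟨C, hC⟩ := hcomp.exists_bound_of_continuousOn hH
  have hslice : ∀ eps : ℝ, 0 ≤ eps → eps ≤ 1 → ContinuousOn (fun x => H eps x) K := by
    intro eps h1 h2
    exact hH.comp (f := fun x => (eps, x)) (by fun_prop) (fun x hx => ⟨⟨h1, h2⟩, hx⟩)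
  have hind : ∀ eps : ℝ, (fun x : Fin d → ℝ => (psi (nsq x) : ℂ) * H eps x)
      = K.indicator (fun x : Fin d → ℝ => (psi (nsq x) : ℂ) * H eps x) := by
    intro eps
    ext x
    by_cases hx : x ∈ K
    · rw [Set.indicator_of_mem hx]
    · rw [Set.indicator_of_notMem hx, psi_eq_zero hx]
      simp
  have hmeas : ∀ eps : ℝ, 0 ≤ eps → eps ≤ 1 →
      AEStronglyMeasurable (fun x : Fin d → ℝ => (psi (nsq x) : ℂ) * H eps x) volume := by
    intro eps h1 h2
    rw [hind, aestronglyMeasurable_indicator_iff hKc.measurableSet]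
    apply ContinuousOn.aestronglyMeasurable _ hKc.measurableSet
    refine ContinuousOn.mul ?_ (hslice eps h1 h2)
    exact (Complex.continuous_ofReal.comp (continuous_psi.comp continuous_nsq)).continuousOn
  have hlim := tendsto_integral_of_dominated_convergence (μ := (volume : Measure (Fin d → ℝ)))
    (F := fun (n : ℕ) (x : Fin d → ℝ) => (psi (nsq x) : ℂ) * H (1 / ((n : ℝ) + 1)) x)
    (f := fun x => (psi (nsq x) : ℂ) * H 0 x) (K.indicator fun _ => |C|) ?_ ?_ ?_ ?_
  · have hz : ∀ n : ℕ, ∫ x : Fin d → ℝ, (psi (nsq x) : ℂ) * H (1 / ((n : ℝ) + 1)) x = 0 := by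
      intro n
      apply h0
      · positivity
      · rw [div_le_one (by positivity)]
        have : (0 : ℝ) ≤ n := Nat.cast_nonneg n
        linarith
    simp only [hz] at hlim
    exact (tendsto_nhds_unique hlim tendsto_const_nhds)
  · intro n
    apply hmeas
    · positivity
    · rw [div_le_one (by positivity)]
      have : (0 : ℝ) ≤ n := Nat.cast_nonneg n
      linarith
  · rw [integrable_indicator_iff hKc.measurableSet]
    exact integrableOn_const hKc.measure_lt_top.ne
  · intro n
    refine Eventually.of_forall fun x => ?_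
    by_cases hx : x ∈ K
    · rw [Set.indicator_of_mem hx, norm_mul]
      have h1 : (0 : ℝ) ≤ 1 / ((n : ℝ) + 1) := by positivity
      have h2 : 1 / ((n : ℝ) + 1) ≤ 1 := by
        rw [div_le_one (by positivity)]
        have : (0 : ℝ) ≤ n := Nat.cast_nonneg n
        linarith
      have h3 := hC (1 / ((n : ℝ) + 1), x) ⟨⟨h1, h2⟩, hx⟩
      have h4 : ‖(psi (nsq x) : ℂ)‖ ≤ 1 := by
        rw [Complex.norm_real, Real.norm_of_nonneg (psi_nonneg _)]
        exact psi_le_one _
      calc ‖(psi (nsq x) : ℂ)‖ * ‖H (1 / ((n : ℝ) + 1)) x‖ ≤ 1 * C :=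
            mul_le_mul h4 h3 (norm_nonneg _) (by norm_num)
        _ ≤ |C| := by rw [one_mul]; exact le_abs_self C
    · rw [Set.indicator_of_notMem hx, psi_eq_zero hx]
      simp
  · refine Eventually.of_forall fun x => ?_
    by_cases hx : x ∈ K
    · apply Tendsto.const_mul
      have h1 : ContinuousWithinAt (fun p : ℝ × (Fin d → ℝ) => H p.1 p.2)
          (Set.Icc (0 : ℝ) 1 ×ˢ K) (0, x) := hH (0, x) ⟨⟨le_rfl, zero_le_one⟩, hx⟩
      have h2 : Tendsto (fun n : ℕ => ((1 / ((n : ℝ) + 1) : ℝ), x)) atTop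
          (𝓝[Set.Icc (0 : ℝ) 1 ×ˢ K] ((0 : ℝ), x)) := by
        apply tendsto_nhdsWithin_iff.2
        constructor
        · exact (tendsto_one_div_add_atTop_nhds_zero_nat).prodMk_nhds tendsto_const_nhds
        · refine Eventually.of_forall fun n => ?_
          refine ⟨⟨?_, ?_⟩, hx⟩
          · positivity
          · rw [div_le_one (by positivity)]
            have : (0 : ℝ) ≤ n := Nat.cast_nonneg n
            linarith
      exact h1.tendsto.comp h2
    · simp only [psi_eq_zero hx]
      simp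

theorem t_pos : S_pos := by
  intro d k hd
  set f : (Fin d → ℝ) → ℝ := fun x => psi (nsq x) * (max 1 (nsq x))⁻¹ ^ k with hf
  have hfe : ∀ x : Fin d → ℝ, (psi (nsq x) : ℂ) * (((nsq x)⁻¹ : ℝ) : ℂ) ^ k = ((f x : ℝ) : ℂ) := by
    intro x
    simp only [hf]
    by_cases hx : 1 ≤ nsq x ∧ nsq x ≤ 2
    · rw [max_eq_right hx.1]
      push_cast
      ring
    · rw [psi_eq_zero hx]
      simp
  have hcont : Continuous f := by
    refine Continuous.mul (continuous_psi.comp continuous_nsq) ?_
    refine Continuous.pow (Continuous.inv₀ ?_ ?_) k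
    · exact continuous_const.max continuous_nsq
    · intro x
      exact ne_of_gt (lt_of_lt_of_le one_pos (le_max_left _ _))
  have hsupp : HasCompactSupport f := by
    apply HasCompactSupport.intro (isCompact_shell (d := d))
    intro x hx
    simp only [hf, psi_eq_zero hx, zero_mul]
  have hnn : 0 ≤ f := by
    intro x
    simp only [hf]
    have h1 : (0 : ℝ) < max 1 (nsq x) := lt_of_lt_of_le one_pos (le_max_left _ _)
    have h2 := psi_nonneg (nsq x)
    positivity
  have hne : f (Pi.single (⟨0, hd⟩ : Fin d) (Real.sqrt (3 / 2))) ≠ 0 := by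
    have h1 : nsq (Pi.single (⟨0, hd⟩ : Fin d) (Real.sqrt (3 / 2))) = 3 / 2 := by
      unfold nsq
      rw [Finset.sum_eq_single (⟨0, hd⟩ : Fin d)]
      · rw [Pi.single_eq_same, Real.sq_sqrt (by norm_num)]
      · intro b _ hb
        rw [Pi.single_eq_of_ne hb]
        norm_num
      · simp
    simp only [hf, h1]
    have h2 : psi (3 / 2) = 1 / 4 := by
      unfold psi
      norm_num
    rw [h2]
    positivity
  have hpos := hcont.integral_pos_of_hasCompactSupport_nonneg_nonzero
    (μ := (volume : Measure (Fin d → ℝ))) hsupp hnn hne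
  rw [show (fun x : Fin d → ℝ => (psi (nsq x) : ℂ) * (((nsq x)⁻¹ : ℝ) : ℂ) ^ k)
    = fun x => ((f x : ℝ) : ℂ) from funext hfe, integral_complex_ofReal]
  exact_mod_cast hpos.ne'

end Pool.Agent.Y275.CS
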